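import Pool.Agent.helper76.UFG.Spec

/-!
# Row ufg:BCJ: the conjugations are compatible
-/

set_option autoImplicit false

namespace Pool.Agent.UFG

open Finset NumberField nonZeroDivisors Pool.Agent.UF

/-- left inverses are equal -/
theorem BCJ_inv {R : Type} [CommRing R] {a b c : R} (h1 : a * c = 1) (h2 : b * c = 1) : a = b := by
  calc a = a * (b * c) := by rw [h2, mul_one]
    _ = b * (a * c) := by ring
    _ = b := by rw [h1, mul_one]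

theorem BCJ (hBSN : BSN_stmt) : BCJ_stmt := by
  intro m n K L _ _ _ _ _ _ _ z bK y bL hz hbK hn hdvd hy hbL
  have : NeZero n := ⟨hn⟩
  have hcK : CycN (2 ^ (m + 1)) z := hBSN (2 ^ (m + 1)) K z (by positivity) hz
  have hcL : CycN n y := hBSN n L y hn hy
  have hZn : (algebraMap (𝓞 K) (𝓞 L) z) ^ n = 1 := by
    obtain ⟨q, rfl⟩ := hdvd
    rw [← map_pow, pow_mul, hz.pow_eq_one, one_pow, map_one]
  obtain ⟨i, -, hi⟩ := hy.eq_pow_of_pow_eq_one hZn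
  have hZ1 : bL (algebraMap (𝓞 K) (𝓞 L) z) * algebraMap (𝓞 K) (𝓞 L) z = 1 := by
    rw [← hi, map_pow, ← mul_pow, hbL.1, one_pow]
  have hZ2 : algebraMap (𝓞 K) (𝓞 L) (bK z) * algebraMap (𝓞 K) (𝓞 L) z = 1 := by
    rw [← map_mul, hbK.1, map_one]
  refine ⟨fun a => ?_, fun s a => ?_⟩
  · exact hcK.ext ((bL : 𝓞 L →+* 𝓞 L).comp (algebraMap (𝓞 K) (𝓞 L)))
      ((algebraMap (𝓞 K) (𝓞 L)).comp (bK : 𝓞 K →+* 𝓞 K)) (BCJ_inv hZ1 hZ2) a
  · obtain ⟨k, -, hk⟩ := hcL.pow hn s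
    have h1 : s (bL y) * y ^ k = 1 := by
      rw [← hk, ← map_mul, hbL.1, map_one]
    have h2 : bL (s y) * y ^ k = 1 := by
      rw [hk, map_pow, ← mul_pow, hbL.1, one_pow]
    exact hcL.ext ((s : 𝓞 L →+* 𝓞 L).comp (bL : 𝓞 L →+* 𝓞 L))
      ((bL : 𝓞 L →+* 𝓞 L).comp (s : 𝓞 L →+* 𝓞 L)) (BCJ_inv h1 h2) a

end Pool.Agent.UFG
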