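import Pool.Agent.helper76.UFG.Spec

/-!
# Row ufg:BLE: the complex conjugation exists
-/

set_option autoImplicit false

namespace Pool.Agent.UFG

open Finset NumberField nonZeroDivisors Pool.Agent.UF

theorem BLE : BLE_stmt := by
  intro n R _ _ y hn h
  have hco : Nat.Coprime (n - 1) n := by
    obtain ⟨k, rfl⟩ : ∃ k, n = k + 1 := ⟨n - 1, by omega⟩
    rw [Nat.add_sub_cancel]
    exact (Nat.coprime_self_add_right (m := k) (n := 1)).mpr (Nat.coprime_one_right k)
  obtain ⟨b, hb⟩ := h.2.2 (n - 1) hco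
  have h1 : b y * y = 1 := by
    rw [hb, ← pow_succ, Nat.sub_add_cancel (Nat.pos_of_ne_zero hn), h.1.pow_eq_one]
  have h2 : b (b y) * b y = 1 := by
    rw [← map_mul, h1, map_one]
  have h3 : b (b y) = y := by
    calc b (b y) = b (b y) * (b y * y) := by rw [h1, mul_one]
      _ = (b (b y) * b y) * y := by ring
      _ = y := by rw [h2, one_mul]
  refine ⟨b, h1, fun a => ?_⟩
  exact h.ext ((b : R →+* R).comp (b : R →+* R)) (RingHom.id R) h3 a

end Pool.Agent.UFG
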