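import Pool.Agent.helper76.UFG.Spec

/-!
# Row ufg:BSN: cyclotomic rings are generated by a root of unity
-/

set_option autoImplicit false

namespace Pool.Agent.UFG

open Finset NumberField nonZeroDivisors Pool.Agent.UF Polynomial

theorem BSN : BSN_stmt := by
  intro n L _ _ _ y hn hy
  have : NeZero n := ⟨hn⟩
  have hyL : IsPrimitiveRoot (y : L) n :=
    hy.map_of_injective (f := algebraMap (𝓞 L) L) (RingOfIntegers.coe_injective)
  have hint : hyL.toInteger = y := by
    apply RingOfIntegers.ext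
    rfl
  obtain ⟨pb, hgen⟩ : ∃ pb : PowerBasis ℤ (𝓞 L), pb.gen = y := by
    refine ⟨hyL.integralPowerBasis, ?_⟩
    rw [hyL.integralPowerBasis_gen, hint]
  refine ⟨hy, ?_, ?_⟩
  · intro a
    refine ⟨pb.dim, fun i => if h : i < pb.dim then pb.basis.repr a ⟨i, h⟩ else 0, ?_⟩
    rw [Finset.sum_range]
    conv_lhs => rw [← pb.basis.sum_repr a]
    refine Finset.sum_congr rfl fun j _ => ?_
    rw [pb.basis_eq_pow, hgen, zsmul_eq_mul]
    simp
  · intro t hco
    have hyt : IsPrimitiveRoot ((y : L) ^ t) n := hyL.pow_of_coprime t hco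
    have hirr : Irreducible (cyclotomic n ℚ) := cyclotomic.irreducible_rat (Nat.pos_of_ne_zero hn)
    have hmin : minpoly ℚ (hyL.powerBasis ℚ).gen = minpoly ℚ (hyt.powerBasis ℚ).gen := by
      rw [hyL.powerBasis_gen ℚ, hyt.powerBasis_gen ℚ, ← hyL.minpoly_eq_cyclotomic_of_irreducible hirr,
        ← hyt.minpoly_eq_cyclotomic_of_irreducible hirr]
    obtain ⟨g, hg⟩ : ∃ g : L ≃ₐ[ℚ] L, g (y : L) = (y : L) ^ t := by
      refine ⟨(hyL.powerBasis ℚ).equivOfMinpoly (hyt.powerBasis ℚ) hmin, ?_⟩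
      have h1 := (hyL.powerBasis ℚ).equivOfMinpoly_gen (hyt.powerBasis ℚ) hmin
      rw [hyL.powerBasis_gen ℚ, hyt.powerBasis_gen ℚ] at h1
      exact h1
    refine ⟨RingOfIntegers.mapRingEquiv (g : L ≃+* L), ?_⟩
    apply RingOfIntegers.ext
    rw [RingOfIntegers.mapRingEquiv_apply]
    refine Eq.trans hg ?_
    exact (map_pow (algebraMap (𝓞 L) L) y t).symm

end Pool.Agent.UFG
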